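import Pool.Agent.Helper13.JS.St
import Pool.Agent.Helper15.AB.M_BL
import Pool.Agent.Helper15.AB.M_T2

/-!
Project JS, module B3: large conductors.
-/

set_option autoImplicit false

namespace Pool.Agent.Helper12.JS

open Finset ArithmeticFunction Pool.Agent.Helper13.JS
open Pool.Agent.Helper15.AB (IsW Th SP SN)
open Pool.Agent.Helper60.GP (II)

namespace B3

/-- Cauchy-Schwarz in the form needed here -/
lemma cs (S : Finset ℕ) (c : ℕ → ℝ) (hc : ∀ r, 0 ≤ c r) (A B : (ℕ → ℂ) → ℝ) {X0 Y0 Z : ℝ}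
    (hX0 : 0 < X0) (hZ0 : 0 < Z) (hXY : X0 * Y0 ≤ Z ^ 2)
    (hX : ∑ r ∈ S, c r * SP (fun f => A f ^ 2) r ≤ X0)
    (hY : ∑ r ∈ S, c r * SP (fun f => B f ^ 2) r ≤ Y0) :
    ∑ r ∈ S, c r * SP (fun f => A f * B f) r ≤ Z := by
  set lam : ℝ := Z / X0 with hlam
  have hlam0 : 0 < lam := by positivity
  have h1 : ∀ f, A f * B f ≤ (lam / 2) * A f ^ 2 + (1 / (2 * lam)) * B f ^ 2 := by
    intro f
    have h3 : (lam / 2) * A f ^ 2 + (1 / (2 * lam)) * B f ^ 2 - A f * B f =
        (lam * A f - B f) ^ 2 / (2 * lam) := by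
      field_simp
      ring
    have h4 : 0 ≤ (lam * A f - B f) ^ 2 / (2 * lam) := by positivity
    linarith
  have h5 : ∑ r ∈ S, c r * SP (fun f => A f * B f) r ≤ (lam / 2) * X0 + (1 / (2 * lam)) * Y0 := by
    calc ∑ r ∈ S, c r * SP (fun f => A f * B f) r
        ≤ ∑ r ∈ S, c r * ((lam / 2) * SP (fun f => A f ^ 2) r
            + (1 / (2 * lam)) * SP (fun f => B f ^ 2) r) := by
          refine Finset.sum_le_sum fun r _ => mul_le_mul_of_nonneg_left ?_ (hc r)
          rw [← Pool.Agent.Helper15.AB.T2aux.SP_lin]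
          exact Pool.Agent.Helper15.AB.T2aux.SP_mono h1 r
      _ = (lam / 2) * ∑ r ∈ S, c r * SP (fun f => A f ^ 2) r
          + (1 / (2 * lam)) * ∑ r ∈ S, c r * SP (fun f => B f ^ 2) r := by
          rw [Finset.mul_sum, Finset.mul_sum, ← Finset.sum_add_distrib]
          exact Finset.sum_congr rfl fun r _ => by ring
      _ ≤ _ := by gcongr
  refine h5.trans ?_
  have h6 : (lam / 2) * X0 = Z / 2 := by
    rw [hlam]
    field_simp
  have h7 : (1 / (2 * lam)) * Y0 ≤ Z / 2 := by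
    rw [hlam, one_div, mul_comm, ← div_eq_mul_inv, div_le_iff₀ (by positivity)]
    have : Z / 2 * (2 * (Z / X0)) = Z ^ 2 / X0 := by ring
    rw [this, le_div_iff₀ hX0, mul_comm]
    exact hXY
  linarith

lemma Icc_eq (M : ℕ) : Icc 1 M = Ioc 0 (0 + M) := by
  ext n
  simp only [mem_Icc, mem_Ioc]
  omega

/-- the mean square of the von Mangoldt coefficients -/
lemma ms_vM {ω : ℝ → ℝ} (hω : IsW ω) {V : ℝ} (hV : 3 ≤ V) (k : ℕ) :
    ∑ n ∈ Ioc 0 (0 + ⌊3 * V⌋₊),
      ‖(if Nat.Coprime n k then ((Λ n * ω (Real.log (n / V)) : ℝ) : ℂ) else 0)‖ ^ 2 ≤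
      36 * V * Real.log V := by
  have hV0 : 0 < V := by linarith
  have hl3 : Real.log 3 ≤ Real.log V := Real.log_le_log (by norm_num) hV
  have hL1 := Pool.Agent.Helper15.AB.BL.one_le_log hV
  have hlog : Real.log (3 * V) ≤ 2 * Real.log V := by
    rw [Real.log_mul (by norm_num) hV0.ne']
    linarith
  calc ∑ n ∈ Ioc 0 (0 + ⌊3 * V⌋₊),
      ‖(if Nat.Coprime n k then ((Λ n * ω (Real.log (n / V)) : ℝ) : ℂ) else 0)‖ ^ 2
      ≤ ∑ n ∈ Ioc 0 ⌊3 * V⌋₊, (2 * Real.log V) * Λ n := by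
        rw [zero_add]
        refine sum_le_sum fun n hn => ?_
        rw [mem_Ioc] at hn
        have hΛ : (0 : ℝ) ≤ Λ n := vonMangoldt_nonneg
        have hn0 : (0 : ℝ) < n := by exact_mod_cast hn.1
        have hn1 : (n : ℝ) ≤ 3 * V :=
          le_trans (by exact_mod_cast hn.2) (Nat.floor_le (by positivity))
        have hle : (Λ n : ℝ) ≤ 2 * Real.log V :=
          (vonMangoldt_le_log).trans ((Real.log_le_log hn0 hn1).trans hlog)
        have h1 : ‖(if Nat.Coprime n k then ((Λ n * ω (Real.log (n / V)) : ℝ) : ℂ) else 0)‖ ≤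
            Λ n := by
          split_ifs
          · rw [Complex.norm_real, Real.norm_eq_abs,
              abs_of_nonneg (mul_nonneg hΛ (hω.nonneg _))]
            exact mul_le_of_le_one_right hΛ (hω.le_one _)
          · rw [norm_zero]
            exact hΛ
        calc ‖(if Nat.Coprime n k then ((Λ n * ω (Real.log (n / V)) : ℝ) : ℂ) else 0)‖ ^ 2
            ≤ (Λ n : ℝ) ^ 2 := pow_le_pow_left₀ (norm_nonneg _) h1 2
          _ = (Λ n : ℝ) * Λ n := sq _
          _ ≤ _ := mul_le_mul_of_nonneg_right hle hΛ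
    _ = (2 * Real.log V) * Chebyshev.psi (3 * V) := by
        rw [Chebyshev.psi, mul_sum]
    _ ≤ (2 * Real.log V) * ((Real.log 4 + 4) * (3 * V)) := by
        have := Chebyshev.psi_le_const_mul_self (x := 3 * V) (by positivity)
        gcongr
    _ ≤ (2 * Real.log V) * (6 * (3 * V)) := by
        have h4 : Real.log 4 ≤ 2 := by
          have h5 : Real.log 4 = 2 * Real.log 2 := by
            rw [show (4 : ℝ) = 2 ^ 2 by norm_num, Real.log_pow]
            push_cast
            ring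
          have := Real.log_two_lt_d9
          linarith
        have h6 : Real.log 4 + 4 ≤ 6 := by linarith
        gcongr
    _ = _ := by ring

/-- one dyadic block -/
lemma block (C : ℝ) (hC : 0 < C)
    (hML : ∀ (Q N M : ℕ) (a : ℕ → ℂ), ∑ r ∈ Icc 1 Q, (r : ℝ) / Nat.totient r *
      SP (fun f => ‖∑ n ∈ Ioc M (M + N), a n * f n‖ ^ 2) r ≤
      C * (N + Q ^ 2) * ∑ n ∈ Ioc M (M + N), ‖a n‖ ^ 2)
    (ω : ℝ → ℝ) (hω : IsW ω) (V : ℝ) (M k R : ℕ) (α : ℕ → ℝ) (hV : 3 ≤ V) (hM : 1 ≤ M)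
    (hR : 1 ≤ R) (hα : ∀ m, |α m| ≤ 1) :
    ∑ r ∈ Ioc R (2 * R), 1 / (Nat.totient r : ℝ) * SP (Gk ω V M α k) r ≤
      24 * C * Real.log V * √(M * V) * (√(M * V) / R + (√M + √V) + R) := by
  have hV0 : 0 < V := by linarith
  have hM0 : (0 : ℝ) < M := by exact_mod_cast hM
  have hR0 : (0 : ℝ) < R := by exact_mod_cast hR
  have hL1 := Pool.Agent.Helper15.AB.BL.one_le_log hV
  set L := Real.log V with hL
  have hL0 : 0 < L := by linarith
  set A : (ℕ → ℂ) → ℝ := fun f =>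
    ‖∑ n ∈ Ioc 0 (0 + M), (if Nat.Coprime n k then (α n : ℂ) else 0) * f n‖ with hA
  set B : (ℕ → ℂ) → ℝ := fun f =>
    ‖∑ n ∈ Ioc 0 (0 + ⌊3 * V⌋₊),
      (if Nat.Coprime n k then ((Λ n * ω (Real.log (n / V)) : ℝ) : ℂ) else 0) * f n‖ with hB
  have hG : Gk ω V M α k = fun f => A f * B f := by
    funext f
    simp only [Gk, hA, hB, II]
    rw [sum_filter, sum_filter, ← Icc_eq, ← Icc_eq]
    congr 2
    · refine sum_congr rfl fun n _ => ?_
      rw [ite_mul, zero_mul]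
    · refine sum_congr rfl fun n _ => ?_
      rw [ite_mul, zero_mul]
  have hG0 : ∀ f, 0 ≤ Gk ω V M α k f := fun f => by
    unfold Gk
    positivity
  have hsub : Ioc R (2 * R) ⊆ Icc 1 (2 * R) := by
    intro r hr
    rw [Finset.mem_Ioc] at hr
    rw [Finset.mem_Icc]
    omega
  have hcr : ∀ r : ℕ, 0 ≤ (r : ℝ) / Nat.totient r := fun r => by positivity
  have e2R : ((2 * R : ℕ) : ℝ) = 2 * R := by push_cast; ring
  set X0 : ℝ := C * (M + (2 * R) ^ 2) * M with hX0
  set Y0 : ℝ := C * (3 * V + (2 * R) ^ 2) * (36 * V * L) with hY0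
  have hX0p : 0 < X0 := by positivity
  have hXb : ∑ r ∈ Ioc R (2 * R), (r : ℝ) / Nat.totient r * SP (fun f => A f ^ 2) r ≤ X0 := by
    have h1 := hML (2 * R) M 0 (fun n => if Nat.Coprime n k then (α n : ℂ) else 0)
    refine (Finset.sum_le_sum_of_subset_of_nonneg hsub fun r _ _ =>
      mul_nonneg (hcr r) (Pool.Agent.Helper15.AB.T2aux.SP_nonneg
        (fun f => by positivity) r)).trans (h1.trans ?_)
    rw [hX0, e2R]
    refine mul_le_mul_of_nonneg_left ?_ (by positivity)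
    calc ∑ n ∈ Ioc 0 (0 + M), ‖(if Nat.Coprime n k then (α n : ℂ) else 0)‖ ^ 2
        ≤ ∑ n ∈ Ioc 0 (0 + M), (1 : ℝ) := by
          refine sum_le_sum fun n _ => ?_
          have h2 : ‖(if Nat.Coprime n k then (α n : ℂ) else 0)‖ ≤ 1 := by
            split_ifs
            · rw [Complex.norm_real, Real.norm_eq_abs]
              exact hα n
            · rw [norm_zero]
              norm_num
          exact pow_le_one₀ (norm_nonneg _) h2
      _ = M := by simp
  have hYb : ∑ r ∈ Ioc R (2 * R), (r : ℝ) / Nat.totient r * SP (fun f => B f ^ 2) r ≤ Y0 := by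
    have h1 := hML (2 * R) ⌊3 * V⌋₊ 0
      (fun n => if Nat.Coprime n k then ((Λ n * ω (Real.log (n / V)) : ℝ) : ℂ) else 0)
    refine (Finset.sum_le_sum_of_subset_of_nonneg hsub fun r _ _ =>
      mul_nonneg (hcr r) (Pool.Agent.Helper15.AB.T2aux.SP_nonneg
        (fun f => by positivity) r)).trans (h1.trans ?_)
    have h2 := ms_vM hω hV k
    have h3 : ((⌊3 * V⌋₊ : ℕ) : ℝ) ≤ 3 * V := Nat.floor_le (by positivity)
    rw [hY0, e2R]
    gcongr
  set W : ℝ := √(M * V) + R * (√M + √V) + R ^ 2 with hW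
  set Z : ℝ := 24 * C * L * √(M * V) * W with hZ
  have hMV : 0 < (M : ℝ) * V := by positivity
  have hsMV : 0 < √((M : ℝ) * V) := Real.sqrt_pos.2 hMV
  have hW0 : 0 < W := by positivity
  have hZ0 : 0 < Z := by positivity
  have hXY : X0 * Y0 ≤ Z ^ 2 := by
    have q1 : √((M : ℝ) * V) ^ 2 = M * V := Real.sq_sqrt hMV.le
    have q2 : √(M : ℝ) ^ 2 = M := Real.sq_sqrt hM0.le
    have q3 : √V ^ 2 = V := Real.sq_sqrt hV0.le
    have hWsq : M * V + R ^ 2 * M + R ^ 2 * V + R ^ 4 ≤ W ^ 2 := by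
      have s1 := Real.sqrt_nonneg ((M : ℝ) * V)
      have s2 := Real.sqrt_nonneg (M : ℝ)
      have s3 := Real.sqrt_nonneg V
      have e : W ^ 2 = √((M : ℝ) * V) ^ 2 + R ^ 2 * √(M : ℝ) ^ 2 + R ^ 2 * √V ^ 2 + R ^ 4 +
          (2 * √((M : ℝ) * V) * (R * (√(M : ℝ) + √V)) + 2 * √((M : ℝ) * V) * R ^ 2 +
            2 * R ^ 2 * (√(M : ℝ) * √V) + 2 * (R * (√(M : ℝ) + √V)) * R ^ 2) := by
        rw [hW]
        ring
      have h0 : 0 ≤ (2 * √((M : ℝ) * V) * (R * (√(M : ℝ) + √V)) + 2 * √((M : ℝ) * V) * R ^ 2 +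
            2 * R ^ 2 * (√(M : ℝ) * √V) + 2 * (R * (√(M : ℝ) + √V)) * R ^ 2) := by positivity
      rw [e, q1, q2, q3]
      linarith
    have h1 : ((M : ℝ) + (2 * R) ^ 2) * (3 * V + (2 * R) ^ 2) ≤
        16 * (M * V + R ^ 2 * M + R ^ 2 * V + R ^ 4) := by
      have p1 : 0 ≤ (R : ℝ) ^ 2 * M := by positivity
      have p2 : 0 ≤ (R : ℝ) ^ 2 * V := by positivity
      nlinarith
    calc X0 * Y0 = C ^ 2 * (((M : ℝ) + (2 * R) ^ 2) * (3 * V + (2 * R) ^ 2)) *
          (36 * (M * V)) * L := by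
          rw [hX0, hY0]; ring
      _ ≤ C ^ 2 * (16 * W ^ 2) * (36 * (M * V)) * L ^ 2 := by
          have h2 : L ≤ L ^ 2 := by nlinarith
          have h3 := h1.trans (mul_le_mul_of_nonneg_left hWsq (by norm_num : (0 : ℝ) ≤ 16))
          gcongr
      _ = Z ^ 2 := by
          rw [hZ, mul_pow, mul_pow, q1]
          ring
  have key := cs (Ioc R (2 * R)) (fun r => (r : ℝ) / Nat.totient r) hcr A B hX0p hZ0 hXY hXb hYb
  rw [← hG] at key
  calc ∑ r ∈ Ioc R (2 * R), 1 / (Nat.totient r : ℝ) * SP (Gk ω V M α k) r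
      ≤ ∑ r ∈ Ioc R (2 * R), 1 / (R : ℝ) * ((r : ℝ) / Nat.totient r * SP (Gk ω V M α k) r) := by
        refine sum_le_sum fun r hr => ?_
        rw [mem_Ioc] at hr
        have hrR : (R : ℝ) ≤ r := by exact_mod_cast hr.1.le
        have hφ : (0 : ℝ) < Nat.totient r := by exact_mod_cast Nat.totient_pos.2 (by omega)
        have hS := Pool.Agent.Helper15.AB.T2aux.SP_nonneg hG0 r
        have : 1 / (R : ℝ) * ((r : ℝ) / Nat.totient r * SP (Gk ω V M α k) r) =
            ((r : ℝ) / R) * (1 / (Nat.totient r : ℝ) * SP (Gk ω V M α k) r) := by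
          field_simp
        rw [this]
        have h5 : 1 ≤ (r : ℝ) / R := by rwa [one_le_div hR0]
        have h6 : 0 ≤ 1 / (Nat.totient r : ℝ) * SP (Gk ω V M α k) r := by positivity
        nlinarith
    _ = 1 / (R : ℝ) * ∑ r ∈ Ioc R (2 * R), (r : ℝ) / Nat.totient r * SP (Gk ω V M α k) r := by
        rw [mul_sum]
    _ ≤ 1 / (R : ℝ) * Z := by gcongr
    _ = _ := by
        rw [hZ, hW]
        field_simp

lemma geo1 (R : ℕ) (hR : 1 ≤ R) (J : ℕ) :
    ∑ j ∈ range J, 1 / ((2 ^ j * R : ℕ) : ℝ) ≤ 2 / R - 2 / ((2 ^ J * R : ℕ) : ℝ) := by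
  have hR0 : (0 : ℝ) < R := by exact_mod_cast hR
  induction J with
  | zero => simp
  | succ J ih =>
    rw [sum_range_succ]
    have e : 2 / ((2 ^ (J + 1) * R : ℕ) : ℝ) = 1 / ((2 ^ J * R : ℕ) : ℝ) := by
      push_cast
      rw [pow_succ]
      field_simp
    have e2 : 2 / ((2 ^ J * R : ℕ) : ℝ) = 2 * (1 / ((2 ^ J * R : ℕ) : ℝ)) := by ring
    rw [e]
    rw [e2] at ih
    linarith

lemma geo2 (R D : ℕ) (J : ℕ) :
    ∑ j ∈ range J, (if 2 ^ j * R < D then ((2 ^ j * R : ℕ) : ℝ) else 0) ≤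
        ((2 ^ J * R : ℕ) : ℝ) ∧
    ∑ j ∈ range J, (if 2 ^ j * R < D then ((2 ^ j * R : ℕ) : ℝ) else 0) ≤ 2 * D := by
  induction J with
  | zero =>
    constructor
    · simp
    · simp
  | succ J ih =>
    rw [sum_range_succ]
    have e : ((2 ^ (J + 1) * R : ℕ) : ℝ) = 2 * ((2 ^ J * R : ℕ) : ℝ) := by
      push_cast
      ring
    have h0 : (0 : ℝ) ≤ ((2 ^ J * R : ℕ) : ℝ) := Nat.cast_nonneg _
    rw [e]
    by_cases h : 2 ^ J * R < D
    · rw [if_pos h]
      have h1 : ((2 ^ J * R : ℕ) : ℝ) ≤ D := by exact_mod_cast h.le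
      constructor
      · linarith [ih.1]
      · linarith [ih.1]
    · rw [if_neg h]
      constructor
      · linarith [ih.1]
      · linarith [ih.2]

end B3

open B3 in
/-- module B3 -/
theorem hB3 (hML : Pool.Agent.Helper15.AB.StML) : StB3 := by
  obtain ⟨CM, hCM, hML⟩ := hML
  intro ω hω
  refine ⟨48 * CM, by positivity, ?_⟩
  intro V M R D k α hV hM hR hRD hα
  have hV0 : 0 < V := by linarith
  have hM0 : (0 : ℝ) < M := by exact_mod_cast hM
  have hR0 : (0 : ℝ) < R := by exact_mod_cast hR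
  have hL1 := Pool.Agent.Helper15.AB.BL.one_le_log hV
  have hL0 : 0 < Real.log V := by linarith
  have hD1 : 1 ≤ D := hR.trans hRD
  have hG0 : ∀ f, 0 ≤ Gk ω V M α k f := fun f => by
    unfold Gk
    positivity
  set J : ℕ := Nat.log 2 D + 1 with hJ
  have hJD : D < 2 ^ J := Nat.lt_pow_succ_log_self (by norm_num) D
  have hlD : 0 ≤ Real.log D := Real.log_natCast_nonneg _
  have hJle : (J : ℝ) ≤ 2 * (1 + Real.log D) := by
    have hlog2 : (0.5 : ℝ) < Real.log 2 := by
      have := Real.log_two_gt_d9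
      linarith
    have h3 : ((Nat.log 2 D : ℕ) : ℝ) * Real.log 2 ≤ Real.log D := by
      rw [← Real.log_pow]
      have h4 : (2 : ℕ) ^ (Nat.log 2 D) ≤ D := Nat.pow_log_le_self 2 (by omega)
      have h5 : ((2 : ℝ)) ^ (Nat.log 2 D) ≤ D := by exact_mod_cast h4
      exact Real.log_le_log (by positivity) h5
    have h5 : ((Nat.log 2 D : ℕ) : ℝ) * 0.5 ≤ Real.log D := by
      refine le_trans ?_ h3
      gcongr
    have h6 : (J : ℝ) = (Nat.log 2 D : ℕ) + 1 := by
      rw [hJ]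
      push_cast
      ring
    rw [h6]
    linarith
  set P : ℝ := 24 * CM * Real.log V * √(M * V) with hP
  have hP0 : 0 ≤ P := by positivity
  set g : ℕ → ℝ := fun r => 1 / (Nat.totient r : ℝ) * SP (Gk ω V M α k) r with hg
  have hg0 : ∀ r, 0 ≤ g r := fun r => by
    have := Pool.Agent.Helper15.AB.T2aux.SP_nonneg hG0 r
    simp only [hg]
    positivity
  set g' : ℕ → ℝ := fun r => if r ≤ D then g r else 0 with hg'
  have hg'0 : ∀ r, 0 ≤ g' r := by
    intro r
    simp only [hg']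
    split_ifs
    · exact hg0 r
    · exact le_rfl
  calc ∑ r ∈ Ioc R D, g r = ∑ r ∈ Ioc R D, g' r := by
        refine sum_congr rfl fun r hr => ?_
        rw [mem_Ioc] at hr
        simp only [hg', if_pos hr.2]
    _ ≤ ∑ r ∈ Ioc R (2 ^ J * R), g' r := by
        apply sum_le_sum_of_subset_of_nonneg
        · apply Ioc_subset_Ioc le_rfl
          calc D ≤ 2 ^ J := hJD.le
            _ ≤ 2 ^ J * R := Nat.le_mul_of_pos_right _ (by omega)
        · intro r _ _
          exact hg'0 r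
    _ = ∑ j ∈ range J, ∑ r ∈ Ioc (2 ^ j * R) (2 * (2 ^ j * R)), g' r :=
        Pool.Agent.Helper15.AB.BL.dyadic g' R J
    _ ≤ ∑ j ∈ range J, P * (√(M * V) * (1 / ((2 ^ j * R : ℕ) : ℝ)) + (√M + √V) +
          (if 2 ^ j * R < D then ((2 ^ j * R : ℕ) : ℝ) else 0)) := by
        refine sum_le_sum fun j _ => ?_
        by_cases hj : 2 ^ j * R < D
        · rw [if_pos hj]
          have hb := block CM hCM hML ω hω V M k (2 ^ j * R) α hV hM
            (Nat.mul_pos (by positivity) hR) hα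
          refine le_trans ?_ (hb.trans (le_of_eq ?_))
          · refine sum_le_sum fun r _ => ?_
            simp only [hg']
            split_ifs
            · exact le_rfl
            · exact hg0 r
          · rw [hP]
            ring
        · have : ∑ r ∈ Ioc (2 ^ j * R) (2 * (2 ^ j * R)), g' r = 0 := by
            apply sum_eq_zero
            intro r hr
            rw [mem_Ioc] at hr
            simp only [hg']
            rw [if_neg (by omega)]
          rw [this, if_neg hj]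
          positivity
    _ = P * (√(M * V) * (∑ j ∈ range J, 1 / ((2 ^ j * R : ℕ) : ℝ)) + J * (√M + √V) +
          ∑ j ∈ range J, (if 2 ^ j * R < D then ((2 ^ j * R : ℕ) : ℝ) else 0)) := by
        rw [← mul_sum, sum_add_distrib, sum_add_distrib, ← mul_sum, sum_const, card_range,
          nsmul_eq_mul]
    _ ≤ P * (√(M * V) * (2 / R) + (2 * (1 + Real.log D)) * (√M + √V) + 2 * D) := by
        have h1 : ∑ j ∈ range J, 1 / ((2 ^ j * R : ℕ) : ℝ) ≤ 2 / R := by
          refine (geo1 R hR J).trans ?_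
          have : (0 : ℝ) ≤ 2 / ((2 ^ J * R : ℕ) : ℝ) := by positivity
          linarith
        have h2 := (geo2 R D J).2
        gcongr
    _ = _ := by
        rw [hP]
        ring

end Pool.Agent.Helper12.JS
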